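import Pool.Agent.helper12.SP.Defs

/-!
# Loop programs on Turing machines

Module B of the simulation: a function computed by loop programs within the bound `bd` is decided by a
one-work-tape Turing machine whose work tape holds the binary digits of all registers on tracks.
-/

set_option autoImplicit false

namespace Pool.Agent.helper12.SP

namespace BM

open Relation

/-- A macro machine: left-to-right sweeps over the work tape, then a decision at the right end. -/
structure Mac where
  /-- states -/
  P : Type
  /-- cell contents -/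
  C : Type
  finP : Finite P
  finC : Finite C
  /-- initial state -/
  start : P
  /-- one step of the transducer -/
  st : P → C → P × C
  /-- the decision at the right end: answer, or new state, new cell, move of the input head -/
  fin : P → Option Bool → Bool ⊕ (P × Option C × SignType)

/-- states of the Turing machine of a macro machine -/
inductive MSt (P : Type) where
  | R (p : P) : MSt P
  | L (p : P) : MSt P
  | H (b : Bool) : MSt P

theorem MSt.finite {P : Type} [Finite P] : Finite (MSt P) := by
  let f : MSt P → P ⊕ (P ⊕ Bool) := fun s => match s with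
    | .R p => Sum.inl p
    | .L p => Sum.inr (Sum.inl p)
    | .H b => Sum.inr (Sum.inr b)
  refine Finite.of_injective f ?_
  rintro (p | p | b) (p' | p' | b') h <;> simp_all [f]

namespace Mac

variable (W : Mac)

/-- the moves -/
def delta : MSt W.P → Option Bool → Option W.C →
    Option (MSt W.P × Option W.C × SignType × SignType)
  | .R p, _, some c => some (.R (W.st p c).1, some (W.st p c).2, 0, 1)
  | .R p, a, none => match W.fin p a with
    | .inl b => some (.H b, none, 0, 0)
    | .inr (p', g, d) => some (.L p', g, d, -1)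
  | .L p, _, some c => some (.L p, some c, 0, -1)
  | .L p, _, none => some (.R p, none, 0, 1)
  | .H _, _, _ => none

/-- the Turing machine -/
@[reducible] def toTM : TM where
  k := 1
  Q := MSt W.P
  Γ := Option W.C
  finQ := by
    have := W.finP
    exact MSt.finite
  finΓ := by
    have := W.finC
    infer_instance
  blank := none
  start := .R W.start
  acc := {MSt.H true}
  δ := fun q a x => (W.delta q a (x 0)).map fun r => (r.1, fun _ => r.2.1, r.2.2.1, fun _ => r.2.2.2)

/-- the tape with contents `l` -/
def tp (l : List W.C) : ℤ → Option W.C := fun i => if 0 ≤ i then l[i.toNat]? else none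

theorem tp_neg (l : List W.C) : W.tp l (-1) = none := by simp [tp]

theorem tp_end (l : List W.C) : W.tp l (l.length : ℤ) = none := by simp [tp]

theorem tp_mid (pre suf : List W.C) (c : W.C) :
    W.tp (pre ++ c :: suf) (pre.length : ℤ) = some c := by
  simp [tp]

theorem tp_update (pre suf : List W.C) (c c' : W.C) :
    Function.update (W.tp (pre ++ c :: suf)) (pre.length : ℤ) (some c') =
      W.tp (pre ++ c' :: suf) := by
  funext i
  by_cases h : i = (pre.length : ℤ)
  · subst h
    rw [Function.update_self, tp_mid]
  · rw [Function.update_of_ne h]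
    unfold tp
    by_cases h0 : 0 ≤ i
    · simp only [h0, if_true]
      have hne : i.toNat ≠ pre.length := by omega
      rcases lt_or_gt_of_ne hne with hlt | hgt
      · rw [List.getElem?_append_left hlt, List.getElem?_append_left hlt]
      · rw [List.getElem?_append_right hgt.le, List.getElem?_append_right hgt.le]
        obtain ⟨k, hk⟩ : ∃ k, i.toNat - pre.length = k + 1 := ⟨i.toNat - pre.length - 1, by omega⟩
        rw [hk]
        simp
    · simp [h0]

theorem tp_update_end (l : List W.C) (g : Option W.C) :
    Function.update (W.tp l) (l.length : ℤ) g = W.tp (l ++ g.toList) := by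
  cases g with
  | none =>
    have h := Function.update_eq_self (l.length : ℤ) (W.tp l)
    rw [W.tp_end] at h
    simpa using h
  | some c =>
    simp only [Option.toList_some]
    funext i
    by_cases h : i = (l.length : ℤ)
    · subst h
      rw [Function.update_self]
      exact (W.tp_mid l [] c).symm
    · rw [Function.update_of_ne h]
      unfold tp
      by_cases h0 : 0 ≤ i
      · simp only [h0, if_true]
        have hne : i.toNat ≠ l.length := by omega
        rcases lt_or_gt_of_ne hne with hlt | hgt
        · rw [List.getElem?_append_left hlt]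
        · rw [List.getElem?_append_right hgt.le, List.getElem?_eq_none (by omega),
            List.getElem?_eq_none (by simp; omega)]
      · simp [h0]

/-- a configuration -/
def cfg (q : MSt W.P) (i : ℤ) (j : ℤ) (l : List W.C) : Cfg W.toTM :=
  ⟨q, i, fun _ => W.tp l, fun _ => j⟩

theorem init_eq : W.toTM.init = W.cfg (.R W.start) 0 0 [] := by
  unfold TM.init cfg
  congr 1
  funext _ i
  unfold tp
  split_ifs <;> simp

/-- one step with the head between `-1` and `S` -/
def Stp (w : List Bool) (S : ℕ) (c c' : Cfg W.toTM) : Prop :=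
  W.toTM.step w c = some c' ∧ -1 ≤ c.head 0 ∧ c.head 0 ≤ S

/-- reachability with the head between `-1` and `S` -/
def Reach (w : List Bool) (S : ℕ) : Cfg W.toTM → Cfg W.toTM → Prop := ReflTransGen (W.Stp w S)

variable {W} {w : List Bool} {S : ℕ}

theorem step_eq (q q' : MSt W.P) (i j : ℤ) (l : List W.C) (x : Option W.C) (d d' : SignType)
    (h : W.delta q (TM.rd w i) (W.tp l j) = some (q', x, d, d')) :
    W.toTM.step w (W.cfg q i j l) =
      some ⟨q', i + (d : ℤ), fun _ => Function.update (W.tp l) j x, fun _ => j + (d' : ℤ)⟩ := by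
  unfold TM.step cfg
  simp only
  rw [h]
  rfl

theorem reach_right (i : ℤ) (p : W.P) (c : W.C) (pre suf : List W.C)
    (hS : (pre ++ c :: suf).length ≤ S) :
    W.Stp w S (W.cfg (.R p) i pre.length (pre ++ c :: suf))
      (W.cfg (.R (W.st p c).1) i (pre ++ [(W.st p c).2]).length
        ((pre ++ [(W.st p c).2]) ++ suf)) := by
  refine ⟨?_, ?_, ?_⟩
  · rw [step_eq (q' := .R (W.st p c).1) (x := some (W.st p c).2) (d := 0) (d' := 1)]
    · rw [W.tp_update]
      unfold cfg
      simp
    · rw [W.tp_mid]
      rfl
  · simp only [cfg]; omega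
  · simp only [List.length_append, List.length_cons] at hS
    simp only [cfg]
    omega

variable (W) in
/-- a whole sweep -/
def sw : W.P → List W.C → W.P × List W.C
  | p, [] => (p, [])
  | p, c :: l => ((sw (W.st p c).1 l).1, (W.st p c).2 :: (sw (W.st p c).1 l).2)

@[simp] theorem sw_nil (p : W.P) : W.sw p [] = (p, []) := rfl

theorem sw_cons (p : W.P) (c : W.C) (l : List W.C) :
    W.sw p (c :: l) = ((W.sw (W.st p c).1 l).1, (W.st p c).2 :: (W.sw (W.st p c).1 l).2) := rfl

theorem sw_length (l : List W.C) : ∀ p : W.P, (W.sw p l).2.length = l.length := by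
  induction l with
  | nil => intro p; rfl
  | cons c l ih => intro p; simp [sw_cons, ih]

theorem reach_sweep (i : ℤ) (suf : List W.C) : ∀ (pre : List W.C) (p : W.P),
    (pre ++ suf).length ≤ S →
    W.Reach w S (W.cfg (.R p) i pre.length (pre ++ suf))
      (W.cfg (.R (W.sw p suf).1) i (pre ++ (W.sw p suf).2).length (pre ++ (W.sw p suf).2)) := by
  induction suf with
  | nil =>
    intro pre p _
    simp only [List.append_nil, sw_nil]
    exact ReflTransGen.refl
  | cons c suf ih =>
    intro pre p hS
    refine ReflTransGen.head (reach_right i p c pre suf hS) ?_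
    have h := ih (pre ++ [(W.st p c).2]) (W.st p c).1 (by simpa using hS)
    rw [sw_cons]
    unfold Reach at h
    simpa using h

theorem reach_left (i : ℤ) (l : List W.C) (p : W.P) (hS : l.length ≤ S) : ∀ j : ℕ, j ≤ l.length →
    W.Reach w S (W.cfg (.L p) i ((j : ℤ) - 1) l) (W.cfg (.R p) i 0 l) := by
  intro j
  induction j with
  | zero =>
    intro _
    refine ReflTransGen.single ⟨?_, ?_, ?_⟩
    · have e : ((0 : ℕ) : ℤ) - 1 = -1 := by norm_num
      rw [e, step_eq (q' := .R p) (x := none) (d := 0) (d' := 1)]
      · have h := Function.update_eq_self (-1) (W.tp l)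
        rw [W.tp_neg] at h
        rw [h]
        unfold cfg
        simp
      · rw [W.tp_neg]; rfl
    · simp only [cfg]; omega
    · simp only [cfg]; omega
  | succ j ih =>
    intro hj
    have e : ((j + 1 : ℕ) : ℤ) - 1 = j := by push_cast; ring
    rw [e]
    obtain ⟨c, hc⟩ : ∃ c, W.tp l j = some c := by
      unfold tp
      rw [if_pos (by omega)]
      have : (j : ℤ).toNat < l.length := by omega
      exact ⟨l[(j : ℤ).toNat], List.getElem?_eq_getElem this⟩
    refine ReflTransGen.head ⟨?_, ?_, ?_⟩ (ih (by omega))
    · rw [step_eq (q' := .L p) (x := some c) (d := 0) (d' := -1)]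
      · have h := Function.update_eq_self (j : ℤ) (W.tp l)
        rw [hc] at h
        rw [h]
        unfold cfg
        simp
        rfl
      · rw [hc]; rfl
    · simp only [cfg]; omega
    · simp only [cfg]; omega

theorem reach_macro {i : ℤ} {p p' p'' : W.P} {l l' : List W.C} {g : Option W.C} {d : SignType}
    (hsw : W.sw p l = (p', l')) (hf : W.fin p' (TM.rd w i) = .inr (p'', g, d))
    (hl : (l' ++ g.toList).length ≤ S) :
    W.Reach w S (W.cfg (.R p) i 0 l) (W.cfg (.R p'') (i + (d : ℤ)) 0 (l' ++ g.toList)) := by
  have hlen : l'.length = l.length := by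
    have := sw_length (W := W) l p
    rw [hsw] at this
    exact this
  have hl' : l'.length ≤ S := by
    simp only [List.length_append] at hl
    omega
  have h1 := reach_sweep (w := w) (S := S) i l [] p (by simpa [← hlen] using hl')
  rw [hsw] at h1
  simp only [List.nil_append, List.length_nil, Nat.cast_zero] at h1
  refine ReflTransGen.trans h1 ?_
  have h2 := reach_left (w := w) (S := S) (i + (d : ℤ)) (l' ++ g.toList) p'' hl l'.length (by simp)
  refine ReflTransGen.head ⟨?_, ?_, ?_⟩ h2
  · rw [step_eq (q' := .L p'') (x := g) (d := d) (d' := -1)]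
    · rw [W.tp_update_end]
      unfold cfg
      simp
      rfl
    · rw [W.tp_end]
      simp only [delta, hf]
  · simp only [cfg]; omega
  · simp only [cfg]; omega

theorem reach_halt {i : ℤ} {p p' : W.P} {l l' : List W.C} {b : Bool}
    (hsw : W.sw p l = (p', l')) (hf : W.fin p' (TM.rd w i) = .inl b)
    (hl : l'.length ≤ S) :
    W.Reach w S (W.cfg (.R p) i 0 l) (W.cfg (.H b) i l'.length l') := by
  have hlen : l'.length = l.length := by
    have := sw_length (W := W) l p
    rw [hsw] at this
    exact this
  have h1 := reach_sweep (w := w) (S := S) i l [] p (by simpa [← hlen] using hl)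
  rw [hsw] at h1
  simp only [List.nil_append, List.length_nil, Nat.cast_zero] at h1
  refine ReflTransGen.tail h1 ⟨?_, ?_, ?_⟩
  · rw [step_eq (q' := .H b) (x := none) (d := 0) (d' := 0)]
    · rw [W.tp_update_end]
      unfold cfg
      simp
    · rw [W.tp_end]
      simp only [delta, hf]
  · simp only [cfg]; omega
  · simp only [cfg]; omega

/-- from reachability to a sequence of configurations -/
theorem exists_seq {c c' : Cfg W.toTM} (h : W.Reach w S c c') :
    ∃ (T : ℕ) (cs : ℕ → Cfg W.toTM), cs 0 = c ∧ cs T = c' ∧
      ∀ t < T, W.Stp w S (cs t) (cs (t + 1)) := by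
  induction h using ReflTransGen.head_induction_on with
  | refl => exact ⟨0, fun _ => c', rfl, rfl, fun t ht => absurd ht (by omega)⟩
  | @head a b hab _ ih =>
    obtain ⟨T, cs, h0, hT, hs⟩ := ih
    refine ⟨T + 1, fun t => Nat.casesOn t a cs, rfl, hT, ?_⟩
    intro t ht
    cases t with
    | zero => simpa [h0] using hab
    | succ t => exact hs t (by omega)

theorem ncard_le {A : Set ℤ} (h : ∀ i ∈ A, -1 ≤ i ∧ i ≤ (S : ℤ)) : A.ncard ≤ S + 2 := by
  have h1 : A ⊆ (Finset.Icc (-1 : ℤ) S : Set ℤ) := by
    intro i hi
    simpa using h i hi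
  have h2 := Set.ncard_le_ncard h1 (Finset.finite_toSet _)
  rw [Set.ncard_coe_finset, Int.card_Icc] at h2
  omega

theorem ncard_le' {A : Set ℤ} {n : ℕ} (h : ∀ i ∈ A, 0 ≤ i ∧ i ≤ (n : ℤ)) : A.ncard ≤ n + 1 := by
  have h1 : A ⊆ (Finset.Icc (0 : ℤ) n : Set ℤ) := by
    intro i hi
    simpa using h i hi
  have h2 := Set.ncard_le_ncard h1 (Finset.finite_toSet _)
  rw [Set.ncard_coe_finset, Int.card_Icc] at h2
  omega

/-- the input head of `W` stays on the cells `0, …, |w|` -/
def Stays (W : Mac) (w : List Bool) : Prop :=
  ∀ c c' : Cfg W.toTM, W.toTM.step w c = some c' → 0 ≤ c.pos → c.pos ≤ w.length →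
    0 ≤ c'.pos ∧ c'.pos ≤ w.length

/-- conclusion for one input -/
theorem conclude {i j : ℤ} {l : List W.C} {b : Bool} (hW : Stays W w)
    (h : W.Reach w S W.toTM.init (W.cfg (.H b) i j l)) (h0 : -1 ≤ j) (hj : j ≤ S) :
    ∃ (T : ℕ) (cs : ℕ → Cfg W.toTM), cs 0 = W.toTM.init ∧
      (∀ t < T, W.toTM.step w (cs t) = some (cs (t + 1))) ∧ W.toTM.step w (cs T) = none ∧
      ((cs T).q ∈ W.toTM.acc ↔ b = true) ∧ W.toTM.cells cs T ≤ w.length + 1 + (S + 2) := by
  obtain ⟨T, cs, h1, h2, h3⟩ := exists_seq h
  refine ⟨T, cs, h1, fun t ht => (h3 t ht).1, ?_, ?_, ?_⟩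
  · rw [h2]; rfl
  · rw [h2]
    change MSt.H b ∈ ({MSt.H true} : Set (MSt W.P)) ↔ b = true
    simp
  · have hpos : ∀ t ≤ T, 0 ≤ (cs t).pos ∧ (cs t).pos ≤ w.length := by
      intro t
      induction t with
      | zero =>
        intro _
        rw [h1]
        exact ⟨le_refl _, Int.natCast_nonneg _⟩
      | succ t ih =>
        intro ht
        obtain ⟨g1, g2⟩ := ih (by omega)
        exact hW _ _ (h3 t (by omega)).1 g1 g2
    unfold TM.cells
    refine add_le_add (ncard_le' ?_) ?_
    · rintro x ⟨t, ht, rfl⟩
      exact hpos t ht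
    rw [Fin.sum_univ_one]
    apply ncard_le
    rintro x ⟨t, ht, rfl⟩
    rcases Nat.lt_or_ge t T with hlt | hge
    · exact (h3 t hlt).2
    · have : t = T := le_antisymm ht hge
      rw [this, h2]
      exact ⟨h0, hj⟩

end Mac

/-! ### Binary registers on tracks -/

/-- the contents of a work tape cell: one bit for each register -/
abbrev Cell (K : ℕ) : Type := Fin K → Bool

section Cells

variable {K : ℕ}

/-- the bit of the track `r` -/
def bit (c : Cell K) (r : ℕ) : Bool := if h : r < K then c ⟨r, h⟩ else false

/-- write the bit of the track `r` -/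
def setb (c : Cell K) (r : ℕ) (b : Bool) : Cell K := fun i => if i.val = r then b else c i

theorem bit_setb (c : Cell K) {r : ℕ} (b : Bool) (hr : r < K) (r' : ℕ) :
    bit (setb c r b) r' = if r' = r then b else bit c r' := by
  unfold bit setb
  by_cases h : r' = r
  · subst h; simp [hr]
  · by_cases h' : r' < K
    · simp [h, h']
    · simp [h, h']

/-- the cell with only the bit `r` equal to `b` -/
def cel (r : ℕ) (b : Bool) : Cell K := setb (fun _ => false) r b

theorem bit_cel {r : ℕ} (b : Bool) (hr : r < K) (r' : ℕ) :
    bit (cel r b : Cell K) r' = if r' = r then b else false := by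
  unfold cel
  rw [bit_setb _ _ hr]
  congr 1
  unfold bit
  split_ifs <;> rfl

/-- the contents of the registers -/
def val : List (Cell K) → ℕ → ℕ
  | [], _ => 0
  | c :: l, r => (bit c r).toNat + 2 * val l r

theorem val_append (l : List (Cell K)) (c : Cell K) (r : ℕ) :
    val (l ++ [c]) r = val l r + 2 ^ l.length * (bit c r).toNat := by
  induction l with
  | nil => simp [val]
  | cons d l ih =>
    simp only [List.cons_append, val, ih, List.length_cons, pow_succ]
    ring

/-- the operations of a sweep -/
inductive Op where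
  | nop : Op
  | tst (r : ℕ) : Op
  | inc (r : ℕ) : Op
  | dec (r : ℕ) : Op

/-- an operation at one cell, with a flag -/
def ost (o : Op) (b : Bool) (c : Cell K) : Bool × Cell K :=
  match o with
  | .nop => (b, c)
  | .tst r => (b && !bit c r, c)
  | .inc r => if b then (bit c r, setb c r (!bit c r)) else (false, c)
  | .dec r => if b then (!bit c r, setb c r (!bit c r)) else (false, c)

/-- a sweep -/
def osw (o : Op) : Bool → List (Cell K) → Bool × List (Cell K)
  | b, [] => (b, [])
  | b, c :: l => ((osw o (ost o b c).1 l).1, (ost o b c).2 :: (osw o (ost o b c).1 l).2)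

theorem osw_nop (l : List (Cell K)) : ∀ b, osw .nop b l = (b, l) := by
  induction l with
  | nil => intro b; rfl
  | cons c l ih => intro b; simp [osw, ost, ih]

theorem osw_tst (r : ℕ) (l : List (Cell K)) :
    ∀ b, osw (.tst r) b l = (b && decide (val l r = 0), l) := by
  induction l with
  | nil => intro b; simp [osw, val]
  | cons c l ih =>
    intro b
    simp only [osw, ost, ih, val, Prod.mk.injEq, and_true]
    by_cases hb : bit c r = true
    · cases b <;> simp [hb]
    · simp only [Bool.not_eq_true] at hb
      cases b <;> simp [hb]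

theorem osw_inc_false (r : ℕ) (l : List (Cell K)) : osw (.inc r) false l = (false, l) := by
  induction l with
  | nil => rfl
  | cons c l ih => simp [osw, ost, ih]

theorem osw_dec_false (r : ℕ) (l : List (Cell K)) : osw (.dec r) false l = (false, l) := by
  induction l with
  | nil => rfl
  | cons c l ih => simp [osw, ost, ih]

theorem osw_length (o : Op) (l : List (Cell K)) : ∀ b, (osw o b l).2.length = l.length := by
  induction l with
  | nil => intro b; rfl
  | cons c l ih => intro b; simp [osw, ih]

theorem osw_inc {r : ℕ} (hr : r < K) (l : List (Cell K)) :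
    ((osw (.inc r) true l).1 = false ∧
      ∀ r', val (osw (.inc r) true l).2 r' = if r' = r then val l r + 1 else val l r') ∨
    ((osw (.inc r) true l).1 = true ∧ val l r + 1 = 2 ^ l.length ∧
      ∀ r', val (osw (.inc r) true l).2 r' = if r' = r then 0 else val l r') := by
  induction l with
  | nil => right; simp [osw, val]
  | cons c l ih =>
    cases hb : bit c r with
    | false =>
      left
      simp only [osw, ost, if_true, hb, Bool.not_false, osw_inc_false, val, true_and]
      intro r'
      rw [bit_setb _ _ hr]
      by_cases h : r' = r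
      · subst h; simp; omega
      · simp [h]
    | true =>
      simp only [osw, ost, if_true, hb, Bool.not_true]
      rcases ih with ⟨h1, h2⟩ | ⟨h1, h2, h3⟩
      · left
        refine ⟨h1, fun r' => ?_⟩
        simp only [val]
        rw [bit_setb _ _ hr, h2]
        by_cases h : r' = r
        · subst h; simp [hb]; omega
        · simp [h]
      · right
        refine ⟨h1, ?_, fun r' => ?_⟩
        · simp only [val, hb, List.length_cons, pow_succ, ← h2, Bool.toNat_true]
          ring
        · simp only [val]
          rw [bit_setb _ _ hr, h3]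
          by_cases h : r' = r
          · subst h; simp
          · simp [h]

theorem osw_dec {r : ℕ} (hr : r < K) (l : List (Cell K)) : ∀ m, val l r = m + 1 →
    ∀ r', val (osw (.dec r) true l).2 r' = if r' = r then m else val l r' := by
  induction l with
  | nil => intro m h; simp [val] at h
  | cons c l ih =>
    intro m hm r'
    cases hb : bit c r with
    | true =>
      simp only [osw, ost, if_true, hb, Bool.not_true, osw_dec_false, val]
      rw [bit_setb _ _ hr]
      simp only [val, hb, Bool.toNat_true] at hm
      by_cases h : r' = r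
      · subst h; simp; omega
      · simp [h]
    | false =>
      simp only [osw, ost, if_true, hb, Bool.not_false, val]
      simp only [val, hb, Bool.toNat_false] at hm
      obtain ⟨n, hn⟩ : ∃ n, val l r = n + 1 := ⟨val l r - 1, by omega⟩
      rw [bit_setb _ _ hr, ih n hn r']
      by_cases h : r' = r
      · subst h; simp; omega
      · simp [h]

end Cells

/-! ### Control -/

/-- all registers of the program are `< K` -/
def Bdd (K : ℕ) : Stmt → Prop
  | .skip => True
  | .inc r => r < K
  | .seq a b => Bdd K a ∧ Bdd K b
  | .loop r a => r < K ∧ Bdd K a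

theorem Bdd.mono {K K' : ℕ} (h : K ≤ K') : ∀ {P : Stmt}, Bdd K P → Bdd K' P
  | .skip, _ => trivial
  | .inc _, h1 => lt_of_lt_of_le h1 h
  | .seq _ _, h1 => ⟨Bdd.mono h h1.1, Bdd.mono h h1.2⟩
  | .loop _ _, h1 => ⟨lt_of_lt_of_le h1.1 h, Bdd.mono h h1.2⟩

theorem exists_bdd : ∀ P : Stmt, ∃ K, Bdd K P
  | .skip => ⟨0, trivial⟩
  | .inc r => ⟨r + 1, Nat.lt_succ_self r⟩
  | .seq a b => by
    obtain ⟨k, hk⟩ := exists_bdd a
    obtain ⟨k', hk'⟩ := exists_bdd b
    exact ⟨max k k', hk.mono (le_max_left _ _), hk'.mono (le_max_right _ _)⟩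
  | .loop r a => by
    obtain ⟨k, hk⟩ := exists_bdd a
    exact ⟨max (r + 1) k, lt_of_lt_of_le (Nat.lt_succ_self r) (le_max_left _ _),
      hk.mono (le_max_right _ _)⟩

/-- the stacks of statements that can occur while the top statement is executed -/
def stk : Stmt → List Stmt → Set (List Stmt)
  | .skip, k => {.skip :: k}
  | .inc r, k => {.inc r :: k}
  | .seq a b, k => {.seq a b :: k} ∪ (stk a (b :: k) ∪ stk b k)
  | .loop r a, k => {.loop r a :: k} ∪ stk a (.loop r a :: k)

theorem stk_finite : ∀ (P : Stmt) (k : List Stmt), (stk P k).Finite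
  | .skip, _ => Set.finite_singleton _
  | .inc _, _ => Set.finite_singleton _
  | .seq a b, k => (Set.finite_singleton _).union ((stk_finite a (b :: k)).union (stk_finite b k))
  | .loop r a, k => (Set.finite_singleton _).union (stk_finite a (.loop r a :: k))

theorem self_mem_stk (P : Stmt) (k : List Stmt) : P :: k ∈ stk P k := by
  cases P <;> simp [stk]

/-- control states -/
inductive Ctl (F : Set (List Stmt)) where
  | load : Ctl F
  | run (k : F) : Ctl F
  | dec (k : F) : Ctl F

theorem Ctl.finite {F : Set (List Stmt)} (hF : F.Finite) : Finite (Ctl F) := by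
  have := hF.to_subtype
  let f : Ctl F → Option (F ⊕ F) := fun s => match s with
    | .load => none
    | .run k => some (Sum.inl k)
    | .dec k => some (Sum.inr k)
  refine Finite.of_injective f ?_
  rintro (_ | p | p) (_ | p' | p') h <;> simp_all [f]

/-- the operation of a control state -/
def opOf {F : Set (List Stmt)} : Ctl F → Op
  | .load => .nop
  | .run k => match k.1 with
    | [] => .tst 1
    | .inc r :: _ => .inc r
    | .loop r _ :: _ => .tst r
    | _ => .nop
  | .dec k => match k.1 with
    | .loop r _ :: _ => .dec r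
    | _ => .nop

open Classical in
/-- a stack as an element of `F` -/
noncomputable def toS {F : Set (List Stmt)} (h0 : [] ∈ F) (k : List Stmt) : F :=
  if h : k ∈ F then ⟨k, h⟩ else ⟨[], h0⟩

theorem toS_val {F : Set (List Stmt)} (h0 : [] ∈ F) {k : List Stmt} (h : k ∈ F) :
    (toS h0 k).1 = k := by
  unfold toS
  rw [dif_pos h]

/-- the decision at the right end -/
noncomputable def dcs {F : Set (List Stmt)} (h0 : [] ∈ F) (K : ℕ) (P : Stmt) (q : Ctl F) (b : Bool)
    (a : Option Bool) : Bool ⊕ ((Ctl F × Bool) × Option (Cell K) × SignType) :=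
  match q with
  | .load => match a with
    | some x => .inr ((.load, true), some (cel 0 x), 1)
    | none => .inr ((.run (toS h0 [P]), true), some (cel 0 true), 0)
  | .run k => match k.1 with
    | [] => .inl (!b)
    | .skip :: k' => .inr ((.run (toS h0 k'), true), none, 0)
    | .inc r :: k' => .inr ((.run (toS h0 k'), true), if b then some (cel r true) else none, 0)
    | .seq x y :: k' => .inr ((.run (toS h0 (x :: y :: k')), true), none, 0)
    | .loop _ _ :: k' => if b then .inr ((.run (toS h0 k'), true), none, 0)
        else .inr ((.dec k, true), none, 0)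
  | .dec k => match k.1 with
    | .loop r x :: k' => .inr ((.run (toS h0 (x :: .loop r x :: k')), true), none, 0)
    | _ => .inl false

/-- the macro machine of a program -/
@[reducible] noncomputable def mac {F : Set (List Stmt)} (hF : F.Finite) (h0 : [] ∈ F) (K : ℕ)
    (P : Stmt) : Mac where
  P := Ctl F × Bool
  C := Cell K
  finP := by
    have := Ctl.finite hF
    infer_instance
  finC := inferInstance
  start := (.load, true)
  st := fun p c => ((p.1, (ost (opOf p.1) p.2 c).1), (ost (opOf p.1) p.2 c).2)
  fin := fun p a => dcs h0 K P p.1 p.2 a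

/-- the input head moves to the right at most, and only when it reads an input symbol -/
theorem dcs_move {F : Set (List Stmt)} (h0 : [] ∈ F) (K : ℕ) (P : Stmt) (q : Ctl F) (b : Bool)
    (a : Option Bool) {r : (Ctl F × Bool) × Option (Cell K) × SignType}
    (h : dcs h0 K P q b a = .inr r) : r.2.2 = 0 ∨ (r.2.2 = 1 ∧ a.isSome) := by
  unfold dcs at h
  split at h
  · split at h
    · simp only [Sum.inr.injEq] at h
      subst h
      right
      simp
    · simp only [Sum.inr.injEq] at h
      subst h
      left
      rfl
  · split at h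
    · simp at h
    · simp only [Sum.inr.injEq] at h
      subst h
      left
      rfl
    · simp only [Sum.inr.injEq] at h
      subst h
      left
      rfl
    · simp only [Sum.inr.injEq] at h
      subst h
      left
      rfl
    · split at h
      · simp only [Sum.inr.injEq] at h
        subst h
        left
        rfl
      · simp only [Sum.inr.injEq] at h
        subst h
        left
        rfl
  · split at h
    · simp only [Sum.inr.injEq] at h
      subst h
      left
      rfl
    · simp at h

theorem mac_stays {F : Set (List Stmt)} (hF : F.Finite) (h0 : [] ∈ F) (K : ℕ) (P : Stmt)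
    (w : List Bool) : Mac.Stays (mac hF h0 K P) w := by
  intro c c' h g1 g2
  unfold TM.step at h
  rw [Option.map_eq_some_iff] at h
  obtain ⟨r, hr, rfl⟩ := h
  simp only [Mac.toTM, Option.map_eq_some_iff] at hr
  obtain ⟨r', hr', rfl⟩ := hr
  have key : r'.2.2.1 = 0 ∨ (r'.2.2.1 = 1 ∧ (TM.rd w c.pos).isSome) := by
    unfold Mac.delta at hr'
    split at hr'
    · simp only [Option.some.injEq] at hr'
      subst hr'
      left
      rfl
    · split at hr'
      · simp only [Option.some.injEq] at hr'
        subst hr'
        left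
        rfl
      · rename_i heq
        simp only [Option.some.injEq] at hr'
        subst hr'
        exact dcs_move h0 K P _ _ _ heq
    · simp only [Option.some.injEq] at hr'
      subst hr'
      left
      rfl
    · simp only [Option.some.injEq] at hr'
      subst hr'
      left
      rfl
    · simp at hr'
  rcases key with h1 | ⟨h1, h2⟩
  · simp only [h1]
    simpa using ⟨g1, g2⟩
  · simp only [h1]
    have h3 : c.pos < w.length := by
      unfold TM.rd at h2
      rw [if_pos g1] at h2
      have h4 : c.pos.toNat < w.length := by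
        by_contra h5
        rw [List.getElem?_eq_none (by omega)] at h2
        simp at h2
      omega
    have h6 : ((1 : SignType) : ℤ) = 1 := rfl
    rw [h6]
    omega

section Runs

variable {F : Set (List Stmt)} (hF : F.Finite) (h0 : [] ∈ F) {K : ℕ} (P : Stmt)
  {w : List Bool} {S : ℕ}

theorem sw_eq (q : Ctl F) (l : List (Cell K)) : ∀ b, (mac hF h0 K P).sw (q, b) l =
    ((q, (osw (opOf q) b l).1), (osw (opOf q) b l).2) := by
  induction l with
  | nil => intro b; rfl
  | cons c l ih =>
    intro b
    rw [Mac.sw_cons]
    simp only [ih, osw]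

/-- configurations at the start of a sweep -/
noncomputable abbrev cf (q : Ctl F) (i : ℤ) (l : List (Cell K)) : Cfg (mac hF h0 K P).toTM :=
  (mac hF h0 K P).cfg (.R (q, true)) i 0 l

/-- a macro step -/
theorem mstep {q q' : Ctl F} {i : ℤ} {l : List (Cell K)} {g : Option (Cell K)} {d : SignType}
    (hf : dcs h0 K P q (osw (opOf q) true l).1 (TM.rd w i) = .inr ((q', true), g, d))
    (hl : ((osw (opOf q) true l).2 ++ g.toList).length ≤ S) :
    (mac hF h0 K P).Reach w S (cf hF h0 P q i l)
      (cf hF h0 P q' (i + (d : ℤ)) ((osw (opOf q) true l).2 ++ g.toList)) :=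
  Mac.reach_macro (W := mac hF h0 K P) (sw_eq hF h0 P q l true) hf hl

theorem run_ex {B : ℕ} {Q : Stmt} {σ σ' : ℕ → ℕ} (h : Ex B Q σ σ') (hB : Nat.log 2 B + 1 ≤ S)
    (i : ℤ) : ∀ (k : List Stmt) (l : List (Cell K)), Bdd K Q → stk Q k ⊆ F → k ∈ F →
      (∀ r, val l r = σ r) → l.length ≤ S →
      ∃ l' : List (Cell K), (∀ r, val l' r = σ' r) ∧ l'.length ≤ S ∧
        (mac hF h0 K P).Reach w S (cf hF h0 P (.run (toS h0 (Q :: k))) i l)
          (cf hF h0 P (.run (toS h0 k)) i l') := by
  induction h with
  | skip σ =>
    intro k l _ hs hk hv hl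
    have hm : (toS h0 (Stmt.skip :: k)).1 = Stmt.skip :: k := toS_val h0 (hs (self_mem_stk _ _))
    refine ⟨l, hv, hl, ?_⟩
    have ho : opOf (.run (toS h0 (Stmt.skip :: k))) = .nop := by
      simp only [opOf, hm]
    have h1 := mstep (w := w) (S := S) hF h0 P (q := .run (toS h0 (Stmt.skip :: k)))
      (q' := .run (toS h0 k)) (i := i) (l := l) (g := none) (d := 0)
      (by simp only [dcs, hm]) (by simpa [ho, osw_nop] using hl)
    simpa [ho, osw_nop] using h1
  | inc r σ h =>
    intro k l hb hs hk hv hl
    have hm : (toS h0 (Stmt.inc r :: k)).1 = Stmt.inc r :: k := toS_val h0 (hs (self_mem_stk _ _))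
    have ho : opOf (.run (toS h0 (Stmt.inc r :: k))) = .inc r := by
      simp only [opOf, hm]
    have hr : r < K := hb
    have hlen := osw_length (.inc r) l true
    rcases osw_inc hr l with ⟨h1, h2⟩ | ⟨h1, h2, h3⟩
    · refine ⟨(osw (.inc r) true l).2, ?_, by omega, ?_⟩
      · intro r'
        rw [h2]
        by_cases e : r' = r
        · subst e; simp [hv]
        · simp [e, hv]
      · have h4 := mstep (w := w) (S := S) hF h0 P (q := .run (toS h0 (Stmt.inc r :: k)))
          (q' := .run (toS h0 k)) (i := i) (l := l) (g := none) (d := 0)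
          (by simp only [dcs, hm, ho, h1]; simp) (by simp [ho]; omega)
        simpa [ho] using h4
    · have h5 : (osw (.inc r) true l).2.length + 1 ≤ S := by
        have h6 : 2 ^ l.length ≤ B := by rw [← h2, hv]; exact h
        have h7 : l.length ≤ Nat.log 2 B := Nat.le_log_of_pow_le (by norm_num) h6
        omega
      refine ⟨(osw (.inc r) true l).2 ++ [cel r true], ?_, by simpa using h5, ?_⟩
      · intro r'
        rw [val_append, h3, bit_cel _ hr, hlen, ← h2]
        by_cases e : r' = r
        · subst e; simp [hv]
        · simp [e, hv]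
      · have h4 := mstep (w := w) (S := S) hF h0 P (q := .run (toS h0 (Stmt.inc r :: k)))
          (q' := .run (toS h0 k)) (i := i) (l := l) (g := some (cel r true)) (d := 0)
          (by simp only [dcs, hm, ho, h1]; simp) (by simpa [ho] using h5)
        simpa [ho] using h4
  | @seq a b σ σ' σ'' h h' ih ih' =>
    intro k l hb hs hk hv hl
    have hm : (toS h0 (Stmt.seq a b :: k)).1 = Stmt.seq a b :: k :=
      toS_val h0 (hs (self_mem_stk _ _))
    have ho : opOf (.run (toS h0 (Stmt.seq a b :: k))) = .nop := by
      simp only [opOf, hm]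
    have hsa : stk a (b :: k) ⊆ F := fun x hx => hs (Or.inr (Or.inl hx))
    have hsb : stk b k ⊆ F := fun x hx => hs (Or.inr (Or.inr hx))
    obtain ⟨l1, hv1, hl1, hr1⟩ := ih (b :: k) l hb.1 hsa (hsb (self_mem_stk _ _)) hv hl
    obtain ⟨l2, hv2, hl2, hr2⟩ := ih' k l1 hb.2 hsb hk hv1 hl1
    refine ⟨l2, hv2, hl2, ?_⟩
    have h1 := mstep (w := w) (S := S) hF h0 P (q := .run (toS h0 (Stmt.seq a b :: k)))
      (q' := .run (toS h0 (a :: b :: k))) (i := i) (l := l) (g := none) (d := 0)
      (by simp only [dcs, hm]) (by simpa [ho, osw_nop] using hl)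
    have h2 : (mac hF h0 K P).Reach w S (cf hF h0 P (.run (toS h0 (Stmt.seq a b :: k))) i l)
        (cf hF h0 P (.run (toS h0 (a :: b :: k))) i l) := by
      simpa [ho, osw_nop] using h1
    exact h2.trans (hr1.trans hr2)
  | loop_zero r a σ h =>
    intro k l hb hs hk hv hl
    have hm : (toS h0 (Stmt.loop r a :: k)).1 = Stmt.loop r a :: k :=
      toS_val h0 (hs (self_mem_stk _ _))
    have ho : opOf (.run (toS h0 (Stmt.loop r a :: k))) = .tst r := by
      simp only [opOf, hm]
    have hz : val l r = 0 := by rw [hv, h]
    refine ⟨l, hv, hl, ?_⟩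
    have h1 := mstep (w := w) (S := S) hF h0 P (q := .run (toS h0 (Stmt.loop r a :: k)))
      (q' := .run (toS h0 k)) (i := i) (l := l) (g := none) (d := 0)
      (by simp only [dcs, hm, ho, osw_tst, hz]; simp) (by simpa [ho, osw_tst] using hl)
    simpa [ho, osw_tst] using h1
  | @loop_succ r a σ σ' σ'' m h h1 h2 ih ih' =>
    intro k l hb hs hk hv hl
    have hmF : Stmt.loop r a :: k ∈ F := hs (self_mem_stk _ _)
    have hm : (toS h0 (Stmt.loop r a :: k)).1 = Stmt.loop r a :: k := toS_val h0 hmF
    have ho : opOf (.run (toS h0 (Stmt.loop r a :: k))) = .tst r := by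
      simp only [opOf, hm]
    have ho' : opOf (.dec (toS h0 (Stmt.loop r a :: k))) = .dec r := by
      simp only [opOf, hm]
    have hz : val l r = m + 1 := by rw [hv, h]
    have hr : r < K := hb.1
    have hlen := osw_length (.dec r) l true
    have hsa : stk a (Stmt.loop r a :: k) ⊆ F := fun x hx => hs (Or.inr hx)
    have hv0 : ∀ r', val (osw (.dec r) true l).2 r' = Function.update σ r m r' := by
      intro r'
      rw [osw_dec hr l m hz]
      by_cases e : r' = r
      · subst e; simp
      · simp [e, hv]
    obtain ⟨l1, hv1, hl1, hr1⟩ := ih (Stmt.loop r a :: k) (osw (.dec r) true l).2 hb.2 hsa hmF hv0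
      (by omega)
    obtain ⟨l2, hv2, hl2, hr2⟩ := ih' k l1 hb hs hk hv1 hl1
    refine ⟨l2, hv2, hl2, ?_⟩
    have h3 := mstep (w := w) (S := S) hF h0 P (q := .run (toS h0 (Stmt.loop r a :: k)))
      (q' := .dec (toS h0 (Stmt.loop r a :: k))) (i := i) (l := l) (g := none) (d := 0)
      (by simp only [dcs, hm, ho, osw_tst, hz]; simp) (by simpa [ho, osw_tst] using hl)
    have h4 : (mac hF h0 K P).Reach w S (cf hF h0 P (.run (toS h0 (Stmt.loop r a :: k))) i l)
        (cf hF h0 P (.dec (toS h0 (Stmt.loop r a :: k))) i l) := by
      simpa [ho, osw_tst] using h3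
    have h5 := mstep (w := w) (S := S) hF h0 P (q := .dec (toS h0 (Stmt.loop r a :: k)))
      (q' := .run (toS h0 (a :: Stmt.loop r a :: k))) (i := i) (l := l) (g := none) (d := 0)
      (by simp only [dcs, hm]) (by simp [ho']; omega)
    have h6 : (mac hF h0 K P).Reach w S (cf hF h0 P (.dec (toS h0 (Stmt.loop r a :: k))) i l)
        (cf hF h0 P (.run (toS h0 (a :: Stmt.loop r a :: k))) i (osw (.dec r) true l).2) := by
      simpa [ho'] using h5
    exact h4.trans (h6.trans (hr1.trans hr2))

theorem load_reach (hS : w.length + 1 ≤ S) : ∀ (u v : List Bool), w = v ++ u →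
    (mac hF h0 K P).Reach w S
      (cf (K := K) hF h0 P .load (v.length : ℤ) (v.map (cel 0) : List (Cell K)))
      (cf (K := K) hF h0 P (.run (toS h0 [P])) (w.length : ℤ)
        (w.map (cel 0) ++ [cel 0 true] : List (Cell K))) := by
  intro u
  induction u with
  | nil =>
    intro v hv
    rw [List.append_nil] at hv
    subst hv
    have hrd : TM.rd w (w.length : ℤ) = none := by simp [TM.rd]
    have h1 := mstep (K := K) (w := w) (S := S) hF h0 P (q := .load)
      (q' := .run (toS h0 [P])) (i := (w.length : ℤ)) (l := (w.map (cel 0) : List (Cell K)))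
      (g := some (cel 0 true : Cell K)) (d := 0)
      (by simp only [dcs, hrd]) (by simpa [opOf, osw_nop] using hS)
    simpa [opOf, osw_nop] using h1
  | cons b u ih =>
    intro v hv
    have hrd : TM.rd w (v.length : ℤ) = some b := by simp [TM.rd, hv]
    have hlen : v.length + 1 ≤ S := by
      rw [hv] at hS
      simp only [List.length_append, List.length_cons] at hS
      omega
    have h1 := mstep (K := K) (w := w) (S := S) hF h0 P (q := .load)
      (q' := .load) (i := (v.length : ℤ)) (l := (v.map (cel 0) : List (Cell K)))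
      (g := some (cel 0 b : Cell K)) (d := 1)
      (by simp only [dcs, hrd]) (by simpa [opOf, osw_nop] using hlen)
    have h2 : (mac hF h0 K P).Reach w S
        (cf (K := K) hF h0 P .load (v.length : ℤ) (v.map (cel 0) : List (Cell K)))
        (cf (K := K) hF h0 P .load ((v ++ [b]).length : ℤ)
          ((v ++ [b]).map (cel 0) : List (Cell K))) := by
      simpa [opOf, osw_nop] using h1
    exact h2.trans (ih (v ++ [b]) (by simp [hv]))

end Runs

theorem val_load {K : ℕ} (hK : 0 < K) (w : List Bool) (r : ℕ) :
    val (w.map (cel 0) ++ [(cel 0 true : Cell K)]) r = if r = 0 then num w else 0 := by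
  induction w with
  | nil =>
    simp only [List.map_nil, List.nil_append, val, num]
    rw [bit_cel _ hK]
    by_cases h : r = 0 <;> simp [h]
  | cons b w ih =>
    simp only [List.map_cons, List.cons_append, val, num, ih]
    rw [bit_cel _ hK]
    by_cases h : r = 0 <;> simp [h]

theorem num_bounds (w : List Bool) : 2 ^ w.length ≤ num w ∧ num w < 2 ^ (w.length + 1) := by
  induction w with
  | nil => simp [num]
  | cons b w ih =>
    have hb : b.toNat ≤ 1 := Bool.toNat_le b
    simp only [num, List.length_cons]
    rw [pow_succ 2 (w.length + 1), pow_succ 2 w.length] at *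
    omega

theorem log_num (w : List Bool) : Nat.log 2 (num w) = w.length :=
  (Nat.log_eq_iff (Or.inr ⟨by norm_num, by
    have h1 := (num_bounds w).1
    have h2 : 0 < 2 ^ w.length := by positivity
    omega⟩)).2 (num_bounds w)

theorem pow_bound (C s : ℕ) : (C + 2 ^ s) ^ C ≤ 2 ^ ((C + s) * C) := by
  rw [pow_mul]
  apply Nat.pow_le_pow_left
  induction C with
  | zero => simp
  | succ C ih =>
    have h1 : 1 ≤ 2 ^ (C + s) := Nat.one_le_two_pow
    have h2 : 2 ^ (C + 1 + s) = 2 * 2 ^ (C + s) := by
      rw [show C + 1 + s = (C + s) + 1 by ring, pow_succ]; ring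
    omega

end BM

open BM in
theorem dspace_of_cmp {f bd : ℕ → ℕ} (hf : Cmp bd f) (s : ℕ → ℕ)
    (hs : ∀ X, 1 ≤ X → bd X ≤ 2 ^ s (Nat.log 2 X)) :
    ∃ C : ℕ, {w : List Bool | f (num w) ≠ 0} ∈ DSPACE (fun n => C * (s n + n + 1)) := by
  obtain ⟨C, _, hC⟩ := hf
  obtain ⟨P, hP⟩ := hC (fun _ => 0) 1 2 (by norm_num) (fun i _ => ⟨by norm_num, by norm_num⟩)
  obtain ⟨K0, hK0⟩ := exists_bdd P
  set K := max K0 2 with hKdef
  have hKP : Bdd K P := hK0.mono (le_max_left _ _)
  have hK : 0 < K := lt_of_lt_of_le (by norm_num) (le_max_right K0 2)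
  set F : Set (List Stmt) := insert [] (stk P []) with hFdef
  have hF : F.Finite := (stk_finite P []).insert _
  have h0 : ([] : List Stmt) ∈ F := Set.mem_insert _ _
  refine ⟨C * C + C + 5, (mac hF h0 K P).toTM, ?_⟩
  intro w
  set S : ℕ := max (w.length + 1) (Nat.log 2 ((C + bd (num w)) ^ C) + 1) with hSdef
  set σ : ℕ → ℕ := Function.update (fun _ => 0) 0 (num w) with hσ
  have hex : Ex ((C + bd (num w)) ^ C) P σ (Function.update σ 1 (f (num w))) := by
    refine hP (num w) σ _ ?_ ?_ ?_ le_rfl
    · intro i _
      rw [hσ]
      simp only [Function.update_self]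
      rfl
    · rw [hσ, Function.update_of_ne (by norm_num)]
    · intro r hr
      rw [hσ, Function.update_of_ne (by omega)]
  have hload := load_reach (K := K) (w := w) (S := S) hF h0 P (le_max_left _ _) w [] rfl
  obtain ⟨l', hv', hl', hr'⟩ := run_ex (w := w) (S := S) hF h0 P hex (le_max_right _ _)
    (w.length : ℤ) [] (w.map (cel 0) ++ [cel 0 true]) hKP
    (fun x hx => Set.mem_insert_of_mem _ hx) h0
    (by
      intro r
      rw [val_load hK, hσ]
      by_cases h : r = 0
      · subst h; simp
      · rw [Function.update_of_ne h, if_neg h])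
    (by
      rw [List.length_append, List.length_map, List.length_singleton, hSdef]
      exact le_max_left _ _)
  have hinit : (mac hF h0 K P).toTM.init = cf hF h0 P .load ((([] : List Bool).length : ℕ) : ℤ)
      (([] : List Bool).map (cel 0)) := Mac.init_eq _
  have hm : (toS h0 ([] : List Stmt)).1 = [] := toS_val h0 h0
  have ho : opOf (.run (toS h0 ([] : List Stmt))) = .tst 1 := by
    simp only [opOf, hm]
  have hv1 : val l' 1 = f (num w) := by
    rw [hv', Function.update_self]
  have hfin : dcs h0 K P (.run (toS h0 [])) (decide (f (num w) = 0))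
      (TM.rd w (w.length : ℤ)) = .inl (!decide (f (num w) = 0)) := by
    simp only [dcs, hm]
  have hsw : (mac hF h0 K P).sw (.run (toS h0 []), true) l' =
      ((.run (toS h0 []), decide (f (num w) = 0)), l') := by
    rw [sw_eq, ho, osw_tst, hv1]
    simp
  have hhalt := Mac.reach_halt (W := mac hF h0 K P) (w := w) (S := S) (i := (w.length : ℤ))
    (p := (.run (toS h0 []), true)) (p' := (.run (toS h0 []), decide (f (num w) = 0)))
    (l := l') (l' := l') (b := !decide (f (num w) = 0)) hsw hfin hl'
  obtain ⟨T, cs, g1, g2, g3, g4, g5⟩ := Mac.conclude (mac_stays hF h0 K P w)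
    (hinit ▸ (hload.trans (hr'.trans hhalt))) (by omega) (by exact_mod_cast hl')
  refine ⟨T, cs, g1, g2, g3, ?_, ?_⟩
  · rw [g4]
    simp
  · refine g5.trans ?_
    have e1 : Nat.log 2 ((C + bd (num w)) ^ C) ≤ (C + s w.length) * C := by
      have h1 : bd (num w) ≤ 2 ^ s w.length := by
        have := hs (num w) (le_trans Nat.one_le_two_pow (num_bounds w).1)
        rwa [log_num] at this
      calc Nat.log 2 ((C + bd (num w)) ^ C) ≤ Nat.log 2 (2 ^ ((C + s w.length) * C)) := by
            apply Nat.log_mono_right
            exact (Nat.pow_le_pow_left (Nat.add_le_add_left h1 C) C).trans (pow_bound C _)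
        _ = (C + s w.length) * C := Nat.log_pow (by norm_num) _
    have e2 : S ≤ w.length + 1 + ((C + s w.length) * C + 1) := by
      rw [hSdef]
      apply max_le
      · omega
      · omega
    have e3 : (C * C + C + 5) * (s w.length + w.length + 1) =
      C * C + C * s w.length + (2 * w.length + 5) + (C * C * (s w.length + w.length) +
        C * (w.length + 1) + 3 * w.length + 5 * s w.length) := by ring
    have e4 : (C + s w.length) * C = C * C + C * s w.length := by ring
    change w.length + 1 + (S + 2) ≤ (C * C + C + 5) * (s w.length + w.length + 1)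
    rw [e3]
    rw [e4] at e2
    omega

end Pool.Agent.helper12.SP
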